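import Mathlib

namespace Pool.Agent.Results.MP_da5e02_co.Disproof

open SimpleGraph

/-- `p` is a `u,v`-detour: a longest `u,v`-path. -/
def IsDetour {V : Type} {G : SimpleGraph V} {u v : V} (p : G.Walk u v) : Prop :=
  p.IsPath ∧ ∀ q : G.Walk u v, q.IsPath → q.length ≤ p.length

/-- No detour between two distinct vertices of `S` contains a third vertex of `S`. -/
def IsDetourPos {V : Type} (G : SimpleGraph V) (S : Finset V) : Prop :=
  ∀ u ∈ S, ∀ v ∈ S, u ≠ v → ∀ p : G.Walk u v, IsDetour p →
    ∀ w ∈ S, w ∈ p.support → w = u ∨ w = v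

/-- `D` is the detour diameter: the largest length of a path of `G`. -/
def IsDetourDiam {V : Type} (G : SimpleGraph V) (D : ℕ) : Prop :=
  IsGreatest {l | ∃ (u v : V) (p : G.Walk u v), p.IsPath ∧ p.length = l} D

def nb : List ℕ := [384, 1032, 32, 274, 520, 1284, 1152, 577, 41, 144, 98]

def G : SimpleGraph (Fin 11) where
  Adj u v := (nb.getD u 0).testBit v = true
  symm := ⟨by decide⟩
  loopless := ⟨by decide⟩

instance : DecidableRel G.Adj := fun _ _ => inferInstanceAs (Decidable (_ = true))

def chk (t w : Fin 11) : ℕ → Fin 11 → List (Fin 11) → Bool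
  | 0, _, _ => false
  | f + 1, x, vis => if x = t then (!vis.contains w || decide (vis.length < 9)) else
      (List.finRange 11).all fun y => !(decide (G.Adj x y)) || vis.contains y || chk t w f y (x :: vis)

lemma chk_sound (t w : Fin 11) (hw : w ≠ t) (x : Fin 11) (p : G.Walk x t) :
    ∀ f vis, chk t w f x vis = true → p.IsPath → (∀ z ∈ vis, z ∉ p.support) →
      (w ∈ vis ∨ w ∈ p.support) → vis.length + p.length < 9 := by
  induction p with
  | nil =>
    intro f vis h _ _ hm
    cases f with
    | zero => cases h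
    | succ f =>
      simp only [chk, if_true, Bool.or_eq_true, Bool.not_eq_true', decide_eq_true_eq] at h
      rcases hm with hm | hm
      · rcases h with h | h
        · simp [hm] at h
        · simpa using h
      · exact absurd (by simpa using hm) hw
  | @cons x y t hxy q ih =>
    intro f vis h hp hv hm
    rw [Walk.cons_isPath_iff] at hp
    cases f with
    | zero => cases h
    | succ f =>
      have hx : x ≠ t := fun e => hp.2 (e ▸ q.end_mem_support)
      simp only [chk, if_neg hx] at h
      have h1 := List.all_eq_true.1 h y (List.mem_finRange y)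
      have h2 : y ∉ vis := fun hy => hv y hy (by simp)
      simp only [hxy, decide_true, Bool.not_true, Bool.false_or, Bool.or_eq_true,
        List.contains_iff_mem, h2, false_or] at h1
      have := ih hw f (x :: vis) h1 hp.1 (fun z hz => by
        rcases List.mem_cons.1 hz with rfl | hz
        · exact hp.2
        · exact fun hq => hv z hz (by simp [hq])) (by
        rcases hm with hm | hm
        · exact Or.inl (List.mem_cons_of_mem _ hm)
        · rcases List.mem_cons.1 (Walk.support_cons _ _ ▸ hm) with rfl | hm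
          · exact Or.inl List.mem_cons_self
          · exact Or.inr hm)
      simp only [List.length_cons, Walk.length_cons] at this ⊢
      omega

lemma long : ∀ u ∈ ({0, 1, 2} : Finset (Fin 11)), ∀ v ∈ ({0, 1, 2} : Finset (Fin 11)), u ≠ v →
    ∃ q : G.Walk u v, q.IsPath ∧ q.length = 9 := by
  have h01 : ∃ q : G.Walk 0 1, q.IsPath ∧ q.length = 9 :=
    ⟨(.cons (show G.Adj 0 8 by decide) (.cons (show G.Adj 8 5 by decide) (.cons (show G.Adj 5 10 by decide) (.cons (show G.Adj 10 6 by decide) (.cons (show G.Adj 6 7 by decide) (.cons (show G.Adj 7 9 by decide) (.cons (show G.Adj 9 4 by decide) (.cons (show G.Adj 4 3 by decide) (.cons (show G.Adj 3 1 by decide) .nil))))))))), (Walk.isPath_def _).2 (by decide), rfl⟩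
  have h02 : ∃ q : G.Walk 0 2, q.IsPath ∧ q.length = 9 :=
    ⟨(.cons (show G.Adj 0 8 by decide) (.cons (show G.Adj 8 3 by decide) (.cons (show G.Adj 3 4 by decide) (.cons (show G.Adj 4 9 by decide) (.cons (show G.Adj 9 7 by decide) (.cons (show G.Adj 7 6 by decide) (.cons (show G.Adj 6 10 by decide) (.cons (show G.Adj 10 5 by decide) (.cons (show G.Adj 5 2 by decide) .nil))))))))), (Walk.isPath_def _).2 (by decide), rfl⟩
  have h12 : ∃ q : G.Walk 1 2, q.IsPath ∧ q.length = 9 :=
    ⟨(.cons (show G.Adj 1 10 by decide) (.cons (show G.Adj 10 6 by decide) (.cons (show G.Adj 6 7 by decide) (.cons (show G.Adj 7 9 by decide) (.cons (show G.Adj 9 4 by decide) (.cons (show G.Adj 4 3 by decide) (.cons (show G.Adj 3 8 by decide) (.cons (show G.Adj 8 5 by decide) (.cons (show G.Adj 5 2 by decide) .nil))))))))), (Walk.isPath_def _).2 (by decide), rfl⟩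
  have r : ∀ u v, (∃ q : G.Walk u v, q.IsPath ∧ q.length = 9) →
      ∃ q : G.Walk v u, q.IsPath ∧ q.length = 9 :=
    fun u v ⟨q, a, b⟩ => ⟨q.reverse, a.reverse, by simpa using b⟩
  simp only [Finset.mem_insert, Finset.mem_singleton]
  rintro _ (rfl | rfl | rfl) _ (rfl | rfl | rfl) h <;>
    first | exact absurd rfl h | assumption | (apply r; assumption)

def ham : G.Walk 9 2 :=
  (.cons (show G.Adj 9 4 by decide) (.cons (show G.Adj 4 3 by decide) (.cons (show G.Adj 3 1 by decide) (.cons (show G.Adj 1 10 by decide) (.cons (show G.Adj 10 6 by decide) (.cons (show G.Adj 6 7 by decide) (.cons (show G.Adj 7 0 by decide) (.cons (show G.Adj 0 8 by decide) (.cons (show G.Adj 8 5 by decide) (.cons (show G.Adj 5 2 by decide) .nil))))))))))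

/-- A connected graph of order `11` and detour diameter `10` with a detour position set of
`3 > 11 - 10 + 1` vertices. -/
theorem result : ∃ (n D : ℕ) (G : SimpleGraph (Fin n)) (S : Finset (Fin n)), G.Connected ∧
    IsDetourDiam G D ∧ IsDetourPos G S ∧ (n : ℤ) - D + 1 < S.card := by
  refine ⟨11, 10, G, {0, 1, 2}, ?_, ⟨⟨_, _, ham, (Walk.isPath_def _).2 (by decide), rfl⟩, ?_⟩, ?_, by decide⟩
  · have : ∀ v, v ∈ ham.support := by decide
    exact ⟨fun u v => (ham.takeUntil u (this u)).reachable.symm.trans
      (ham.takeUntil v (this v)).reachable⟩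
  · rintro _ ⟨u, v, p, hp, rfl⟩
    have := hp.length_lt
    simp at this
    omega
  · intro u hu v hv huv p hp w hw hm
    by_contra hn
    rw [not_or] at hn
    have key : ∀ u ∈ ({0, 1, 2} : Finset (Fin 11)), ∀ v ∈ ({0, 1, 2} : Finset (Fin 11)), u ≠ v →
        ∀ w ∈ ({0, 1, 2} : Finset (Fin 11)), w ≠ u → w ≠ v → chk v w 12 u [] = true := by
      decide +kernel
    have h1 := chk_sound v w hn.2 u p 12 [] (key u hu v hv huv w hw hn.1 hn.2) hp.1 (by simp)
      (Or.inr hm)
    obtain ⟨q, a, b⟩ := long u hu v hv huv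
    have := hp.2 q a
    simp at h1
    omega

end Pool.Agent.Results.MP_da5e02_co.Disproof
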